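import Pool.Agent.Helper47.FC.Table

/-!
# The fast check for ten variables

The same check as `Helper47.FC.chkA`; the stream of the squares has 190 bits per square (eleven
coefficients).
-/

set_option autoImplicit false

namespace Pool.Agent.Helper8.FC

open Pool.Agent.Helper83.Cert Pool.Agent.Helper47.FC

/-- the code of the monomial with the weight `i` -/
def dcx (T i : ℕ) : ℕ := Nat.land (Nat.shiftRight T (Nat.mul 15 i)) 32767

/-- the check of a table -/
noncomputable def okX (V : ℕ) (P : List ℕ) (m T : ℕ) : Bool :=
  P.all (fun p => [2, 3, 5, 7, 11, 13, 17, 19, 23, 29].contains p) && (Nat.beq (vw V 1) 0 &&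
  (Nat.ble (Nat.succ V) (2 ^ 300) && ((List.range 30).all (fun k => Nat.beq (vw V k) 0 || P.contains k) &&
  (1 :: P).all fun p => (1 :: P).all fun q => (1 :: P).all fun r =>
    Nat.ble (Nat.succ (vw V p + (vw V q + vw V r))) m &&
      Nat.beq (dcx T (vw V p + (vw V q + vw V r))) (p * q * r))))

theorem okX_vars {V : ℕ} {P : List ℕ} {m T : ℕ} (h : okX V P m T = true) : Vars V P m (dcx T) := by
  unfold okX at h
  simp only [Bool.and_eq_true, List.all_eq_true] at h
  obtain ⟨h1, h2, h3, h4, h5⟩ := h
  refine ⟨⟨?_, Nat.eq_of_beq_eq_true h2, ?_⟩, ?_⟩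
  · intro p hp
    have := h1 p hp
    simp only [List.contains_eq_mem, decide_eq_true_eq, List.mem_cons, List.not_mem_nil,
      or_false] at this
    rcases this with rfl | rfl | rfl | rfl | rfl | rfl | rfl | rfl | rfl | rfl <;> norm_num
  · intro p hp q hq r hr
    obtain ⟨h6, h7⟩ := h5 p hp q hq r hr
    exact ⟨Nat.le_of_ble_eq_true h6, Nat.eq_of_beq_eq_true h7⟩
  · intro k hk
    by_cases hk' : k < 30
    · have := h4 k (List.mem_range.2 hk')
      rcases Bool.or_eq_true_iff.1 this with h | h
      · exact absurd (Nat.eq_of_beq_eq_true h) hk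
      · simpa using h
    · exfalso
      apply hk
      have h6 : V < 2 ^ 300 := Nat.lt_of_succ_le (Nat.le_of_ble_eq_true h3)
      have h7 : Nat.shiftRight V (Nat.mul 10 k) = V / 2 ^ (10 * k) := Nat.shiftRight_eq_div_pow _ _
      have h8 : V / 2 ^ (10 * k) = 0 :=
        Nat.div_eq_of_lt (h6.trans_le (Nat.pow_le_pow_right (by norm_num) (by omega)))
      rw [vw, h7, h8]
      exact Nat.zero_and _

def V10 : ℕ := 0x8900000000000008380000000830006440000000604003540000000164000f4000280700000

def P10 : List ℕ := [2, 3, 5, 7, 11, 13, 17, 19, 23, 29]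

def T10 : ℕ := 0x5f4500000000000000000000000000000000000000000000000000000000000000000000000000000012e3c0003e6b000000000000000000000000000000000000000000000000000000000000000000000003bed0000c60400028e50000000000000000000000000000000000000000000000000000000000000000be1c0002743000081bc0001acb00000000000000000000000000000000000000000000000000000000000000000000000000000000000000000000000000000000000000000000000000000000000000000000000000000000000000000000000000000000000000000000000000000000000000000000000000000000000000000000000000000000000000000000000000000000000001bec80000000000000000000000000000000000000000000000000000000155a80000000000000000005896000124b800000000000000000000000000000000000000000000000043be0000dfd80000000000119080003a0a0000bfc800000000000000000000000000000000000000000d6e80002c62000092a800000000000000000000000000000000000000000000000000000000000000000000000000000000000000000000000000000000000000000000000000000000000000000000000000000000000000000000000000000000000000000000000000000000000000000000000000000000000000000000000000000000000000000000000000000000000000000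0000000000000000000000000082f400000000000000000000000000000000000000000000000000000000642400000000000000000019f7000055cc000000000000000000000000004c9400000000000000000013db0000419d2118000000000000000000000000000000000000000000000f2f0000322c000000000000000000000039520000bd6800000000000000000000000000000000000000000000000000000000000000000000000b5d8000258e00007c180000000000000000000000000000000000000000000000000000000000000000000000000000000000000000000000000000000000000000000000000000000000000000000000000000000000000000000000000000000000000000000000000000000000000000000002662000000000000000000000000000000000000000000000000000000001d5a0000b7f8000000000000000000000000000000000000000000000000167200000000000000000000000000247a54bc7888000000000008368000112a00000000000000000000000000000040cc00000000000000073b90cd17e637844ef80001a0e00005618000000000000000000000000000000cd900002a7400000000000000000000000000000052a80001112000038680000000276c00000000d24000000000000000000000003490000000000000000000000000000000000000000007d1000019d429b0000089c0000000000000000a6c0000227000000000000000000000000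000000000018cc000051f084410ec1b5000005a400000000211000006d40000169000000000000000000000000000000000035ec00000000000000000000000000000000000000000000000000000000293c0000000000000000000ab118d62354000000000002684000000000000000000000000000000000082d12fe1b04000000000001d7400000000000000000007a30000193c00000000e8600000000000000000000000000000036d400005d70000134c00000000000000000000000000000000000000b8e000000003da000000000000adf000023ec0f6800000000000000000008d6000000002f20000000024a800007920c380bc8286000000000000000030e00000a18000000000001c0800005ca095800001ee0000000000000000256000007b80000000000000000000000000000000000000000000000000000000000000000fce000000000000000000000000000000000000000000000000000000000c16000000000000000000000000000000000000000000b4a00000000000093e00000000000000000000000000000022e4000000008a200000000000000000000000000000000000000000000000000000000069a000000006eb101216dc0000000000018ec00000000000000000000000000000000003630c4a000012100000000000000000000000048400004f1000010540000297000000000dd00000000000000000000000037400000000000000000001fb000000000a900000000000000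00000077a02a4000027e0000000000000000000000009f80000000000000000000000000000000000000000017b800004e607e800001a200000000000000001fa000006880000000000000000000000000000000000000163400000000000000000000000000000000000000000000000000000000000000000000000000000004670a3a0e8c000000000000fdc000000000000000000000000000000000000007d200000000000000000000000000000000000000325074e0a64000000000000b54000000000000000000000000000000000000005960000000000000000000000000000000000000023f04c2076c00001960000000000000000a6600000658000000000000000000000000000000000000000000f18231031e05080bb010a036600000000122014202ec04280000000000004881ad0000000008f00000000000000000000000023c0ac8000023a039800000be00000000000000000e6000002f800000000000000000006820000000000000000000000000000000000000010500000000057000004fa01d000000000000015c000000000740000000000004a60000000001d0000033c00000ab01140000039005c000001300000045038e00e40170000004c000000000000000005c0000013035200000000000000000000000000069e00000000000000000000000000028a00000000000000000000000165000000000770000000000000000000000001dc000000004ba000000001110000000005b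00000000000000000000000016c00000ff0000000005500000000000000000000000015400000000000000000000c300000000041000000000000000000000000104000000000000000000000000000000000016b000000000790000000000000000000000001e400000000000000004c80000000019800000000088000000000000066000000000220000000003a8000000001380088000006800000000000004e0000000001a0436000000000000000000000680000000000000000000000000000000000000000000000000000000000000000000000000000000302000000000000000000000000000000000000000000000000000000000000000000000000000000000000000000000000000000226000000000000000000000000000000000000000000000000000000000000000000000000000000000000e70000000004d00000000000000000000000013400000000000000000000000000000000000000000000000000000000000000000a5000000000370000000000000000000000000dc000000000000000000000002ae0000000000000000000000000000000000000000000000000000000000000000000000000000000000000000000000000000001ea00000000000000000000318000000001080000000005800000000000004200000000016000000000000000000000000058000015e00000000000000000000000000000000000000000000000000000000000000000000000000000000000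09300000000031000000fa00000000000000000c400000000000000000000000000000000000000000000000000000000000000000690000000002300000000000000000000000008c000000000000000000000000000000000000000000000000000000000000000004b0000000001900000000000000000000000006400000000000000000000000000000000000000000000001f8000000000a80000000003800000000000002a0000000000e000000000000000000000000038000000000000000000000000000168000000000780000000002800000000000001e0000000000a0000000000000000000000000280000000000000000000000000000000000000000000000000000000000000000000000000000000000000000000000000000000000000000006c000000000240000000000c0000000000400090000000000300000000001000000000000000c0000000000400000000000000000000000001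

theorem vars10 : Vars V10 P10 1645 (dcx T10) := okX_vars (by decide +kernel)

noncomputable def nx2 (G : ℕ → ℕ) (s : ℕ) : ℕ :=
  Nat.mul (Nat.mul (Nat.land s 79228162514264337593543950335) (G (Nat.land (Nat.shiftRight s 96) 63))) 4194304

noncomputable def chkVx (V : ℕ) (P : List ℕ) (b Z mask : ℕ) (gs : List Ex) (p : Ex)
    (M k1 s1 k2 s2 : ℕ) : Bool :=
  (fun G => Nat.beq (Nat.land (Nat.sub (Nat.add (Nat.mul (Nat.succ M) (eE V b Z mask p)) Z)
    (Nat.land (Nat.add (sm 114 (t1 mask G) k1 s1)
      (sm 190 (t2 mask (Nat.land (Nat.mul (Nat.mul 128 mask) (sumL (pws V b (1 :: P)))) mask)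
        (pws V b (1 :: P)) G) k2 s2)) mask))
    (Nat.div (Nat.mul (Nat.pow 2 b) mask) (Nat.sub (Nat.pow 2 (Nat.succ b)) 1))) 0)
  (nth (1 :: app (mapL (eE V b Z mask) gs) (pws V b P)))

noncomputable def chkNx (P : List ℕ) (b : ℕ) (gs : List Ex) (p : Ex) (M k1 s1 k2 s2 : ℕ) : Bool :=
  (fun G => Nat.ble (Nat.succ (Nat.add (Nat.mul (Nat.succ M) (nE p))
    (Nat.add (sm 114 (n1 G) k1 s1) (sm 190 (nx2 G) k2 s2)))) (Nat.pow 2 b))
  (nth (1 :: app (mapL nE gs) (ones P)))

noncomputable def chkDx (V : ℕ) (P : List ℕ) (gs : List Ex) (p : Ex) (k1 s1 k2 s2 : ℕ) : Bool :=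
  (fun G => Nat.ble (bmax (dE V p) (bmax (mx 114 (d1 G) k1 s1) (mx 190 (d2 G) k2 s2))) 3)
  (nth (0 :: app (mapL (dE V) gs) (ones P)))

/-- **The check.** -/
noncomputable def chkx (V : ℕ) (P : List ℕ) (m b : ℕ) (gs : List Ex) (p : Ex) (M k1 s1 k2 s2 : ℕ) :
    Bool :=
  Bool.rec (motive := fun _ => Bool) false
    (Bool.rec (motive := fun _ => Bool) false
      (chkVx V P b (Nat.pow 2 (Nat.mul (Nat.succ b) m))
        (Nat.sub (Nat.pow 2 (Nat.mul (Nat.succ b) m)) 1) gs p M k1 s1 k2 s2)
      (chkNx P b gs p M k1 s1 k2 s2)) (chkDx V P gs p k1 s1 k2 s2)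

/-- the sum of the norms -/
noncomputable def tnx (P : List ℕ) (gs : List Ex) (p : Ex) (M k1 s1 k2 s2 : ℕ) : ℕ :=
  (fun G => Nat.add (Nat.mul (Nat.succ M) (nE p))
    (Nat.add (sm 114 (n1 G) k1 s1) (sm 190 (nx2 G) k2 s2)))
  (nth (1 :: app (mapL nE gs) (ones P)))

/-- the check, the number of bits is computed (and forced) -/
noncomputable def chkX (V : ℕ) (P : List ℕ) (m : ℕ) (gs : List Ex) (p : Ex) (M k1 s1 k2 s2 : ℕ) :
    Bool :=
  Nat.rec (motive := fun _ => Bool) false (fun b _ => chkx V P m b gs p M k1 s1 k2 s2)
    (Nat.succ (Nat.succ (Nat.log2 (tnx P gs p M k1 s1 k2 s2))))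

section

variable {V : ℕ} {P : List ℕ} {m b Z mask : ℕ} {dec : ℕ → ℕ} {y : ℕ → ℝ} {Gv Gn Gd : ℕ → ℕ}

theorem Pt_t2 (hV : Vars V P m dec) (hP : P.length ≤ 15) (hz : Zk Z mask) (G : Gs V b P Z y Gv Gn Gd)
    (s : ℕ) :
    Pt V b P Z y (Helper47.FC.t2 mask (Nat.land (Nat.mul (Nat.mul 128 mask) (sumL (pws V b (1 :: P)))) mask)
      (pws V b (1 :: P)) Gv s) (nx2 Gn s) (d2 Gd s) := by
  obtain ⟨h1, h2, h3⟩ := fL_prop (b := b) hV (1 :: P) (fun k hk => hk) (Nat.shiftRight s 102)
  set H := sumL (pws V b (1 :: P)) with hH
  set l := Nat.add (lin (pws V b (1 :: P)) (Nat.shiftRight s 102))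
    (Nat.land (Nat.mul (Nat.mul 128 mask) H) mask) with hl
  have hq : Q (xv V b) P Z (fL (1 :: P) (Nat.shiftRight s 102)) l 2048 1 := by
    refine ⟨h1.trans (by rw [List.length_cons]; omega), fun _ => ⟨?_, h2⟩⟩
    rw [h3]
    have e : ((l : ℕ) : ℤ) = ((lin (pws V b (1 :: P)) (Nat.shiftRight s 102) : ℕ) : ℤ) +
        ((Nat.land (Nat.mul (Nat.mul 128 mask) H) mask : ℕ) : ℤ) := Nat.cast_add _ _
    rw [e]
    have h4 := hz.cong (Nat.mul (Nat.mul 128 mask) H)
    have e2 : ((Nat.mul (Nat.mul 128 mask) H : ℕ) : ℤ) = 128 * (mask : ℤ) * (H : ℤ) := by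
      have : (Nat.mul (Nat.mul 128 mask) H : ℕ) = 128 * mask * H := rfl
      rw [this]
      push_cast
      rfl
    rw [e2] at h4
    have h5 : 128 * (mask : ℤ) * (H : ℤ) ≡ 128 * (-1) * (H : ℤ) [ZMOD Z] :=
      ((Int.ModEq.refl 128).mul (cast_mask hz)).mul (Int.ModEq.refl _)
    have h6 := (Int.ModEq.refl ((lin (pws V b (1 :: P)) (Nat.shiftRight s 102) : ℕ) : ℤ)).add
      (h4.trans h5)
    refine h6.trans ?_
    rw [show (128 : ℤ) * (-1) * (H : ℤ) = -(128 * (H : ℤ)) by ring, ← sub_eq_add_neg]
  have hsq : Pt V b P Z y (Nat.land (Nat.mul l l) mask) 4194304 2 := by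
    refine ⟨fm (fL (1 :: P) (Nat.shiftRight s 102)) (fL (1 :: P) (Nat.shiftRight s 102)),
      (hq.mul hq).land hz, ?_⟩
    rw [evF_fm]
    exact mul_self_nonneg _
  exact ((((Pt.nat _).mul (G _)).mul hsq).land hz).eqd (by
    change 0 + _ + 2 = _
    rw [zero_add]
    rfl)

/-- **Soundness.** -/
theorem chkx_sound (hV : Vars V P m dec) (hP : P.length ≤ 15) {gs : List Ex} {p : Ex}
    {M k1 s1 k2 s2 : ℕ} (h : chkx V P m b gs p M k1 s1 k2 s2 = true) (hy : ∀ k, 0 ≤ y k)
    (hg : ∀ g ∈ gs, 0 ≤ exVal y g) : 0 ≤ exVal y p := by
  have e : chkx V P m b gs p M k1 s1 k2 s2 = Bool.rec (motive := fun _ => Bool) false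
    (Bool.rec (motive := fun _ => Bool) false
      (chkVx V P b (Nat.pow 2 (Nat.mul (Nat.succ b) m))
        (Nat.sub (Nat.pow 2 (Nat.mul (Nat.succ b) m)) 1) gs p M k1 s1 k2 s2)
      (chkNx P b gs p M k1 s1 k2 s2)) (chkDx V P gs p k1 s1 k2 s2) := rfl
  rw [e] at h
  cases hD : chkDx V P gs p k1 s1 k2 s2 with
  | false => rw [hD] at h; exact absurd (h : false = true) Bool.false_ne_true
  | true =>
  rw [hD] at h
  cases hN : chkNx P b gs p M k1 s1 k2 s2 with
  | false => rw [hN] at h; exact absurd (h : false = true) Bool.false_ne_true
  | true =>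
  rw [hN] at h
  replace h : chkVx V P b (Nat.pow 2 (Nat.mul (Nat.succ b) m))
        (Nat.sub (Nat.pow 2 (Nat.mul (Nat.succ b) m)) 1) gs p M k1 s1 k2 s2 = true := h
  set Z := Nat.pow 2 (Nat.mul (Nat.succ b) m) with hZ
  set mask := Nat.sub Z 1 with hmask
  have hz : Zk Z mask := ⟨⟨(b + 1) * m, rfl⟩, rfl⟩
  have G : Gs V b P Z y (nth (1 :: app (mapL (eE V b Z mask) gs) (pws V b P)))
      (nth (1 :: app (mapL nE gs) (ones P))) (nth (0 :: app (mapL (dE V) gs) (ones P))) :=
    Gs.cons (Gs.exs hV hz hg (Gs.vars hV hy P fun k hk => hk)) (Pt.nat 1)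
  obtain ⟨f, hf, hf0⟩ := (Pt.sm 114 (Pt.t1 hz G) k1 s1).add (Pt.sm 190 (Pt_t2 hV hP hz G) k2 s2)
  have hp : Q (xv V b) P Z (fm [(1, ((Nat.succ M : ℕ) : ℤ))] (fE p))
      (Nat.mul (Nat.succ M) (eE V b Z mask p)) (Nat.mul (Nat.succ M) (nE p)) (Nat.add 0 (dE V p)) :=
    (Q.nat (Nat.succ M)).mul (Q.ex hV hz p)
  have hq := hp.sub hz hf
  set q := fm [(1, ((Nat.succ M : ℕ) : ℤ))] (fE p) ++ Helper47.FC.m1 (1, -1) f with hqd
  have hd : bmax (Nat.add 0 (dE V p)) (bmax (mx 114 (d1 (nth (0 :: app (mapL (dE V) gs) (ones P)))) k1 s1)
      (mx 190 (d2 (nth (0 :: app (mapL (dE V) gs) (ones P)))) k2 s2)) ≤ 3 := by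
    have e0 : Nat.add 0 (dE V p) = dE V p := Nat.zero_add _
    rw [e0]
    exact Nat.le_of_ble_eq_true hD
  have hn := Nat.le_of_ble_eq_true hN
  obtain ⟨h1, h2⟩ := hq.h hd
  have h3 := Nat.eq_of_beq_eq_true h
  have h4 : Nat.div (Nat.mul (Nat.pow 2 b) mask) (Nat.sub (Nat.pow 2 (Nat.succ b)) 1) =
      2 ^ b * Helper47.FC.gs (2 ^ (b + 1)) m := hm_eq b m
  rw [h4] at h3
  have h5 : 0 ≤ evF y q := by
    refine key hV.tab (X := Nat.sub (Nat.add (Nat.mul (Nat.succ M) (eE V b Z mask p)) Z)
      (Nat.land (Nat.add (sm 114 (Helper47.FC.t1 mask (nth (1 :: app (mapL (eE V b Z mask) gs) (pws V b P)))) k1 s1)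
      (sm 190 (Helper47.FC.t2 mask (Nat.land (Nat.mul (Nat.mul 128 mask) (sumL (pws V b (1 :: P)))) mask)
        (pws V b (1 :: P)) (nth (1 :: app (mapL (eE V b Z mask) gs) (pws V b P)))) k2 s2)) mask))
      (b := b) (fun a ha => (h2 a ha).mono hd) (lt_of_le_of_lt hq.n (Nat.lt_of_succ_le hn)) ?_ h3 hy
    have e6 : ((2 ^ (b + 1)) ^ m : ℕ) = Z := by
      rw [← pow_mul]
      rfl
    rw [e6]
    exact h1
  rw [hqd, evF_append, evF_m1, evF_fm, evF_fE] at h5
  have h6 : evF y [(1, ((Nat.succ M : ℕ) : ℤ))] = (M : ℝ) + 1 := by
    simp [evF, cm_one]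
  rw [h6] at h5
  simp only [cm_one] at h5
  push_cast at h5
  have h7 : 0 ≤ ((M : ℝ) + 1) * exVal y p := by linarith
  have h8 : (0 : ℝ) < (M : ℝ) + 1 := by positivity
  exact (mul_nonneg_iff_of_pos_left h8).1 h7

theorem chkX_sound (hV : Vars V P m dec) (hP : P.length ≤ 15) {gs : List Ex} {p : Ex}
    {M k1 s1 k2 s2 : ℕ} (h : chkX V P m gs p M k1 s1 k2 s2 = true) (hy : ∀ k, 0 ≤ y k)
    (hg : ∀ g ∈ gs, 0 ≤ exVal y g) : 0 ≤ exVal y p :=
  chkx_sound hV hP (b := Nat.succ (Nat.log2 (tnx P gs p M k1 s1 k2 s2))) h hy hg

end

/-- a certificate, ten variables -/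
theorem certX {y : ℕ → ℝ} {gs : List Ex} {p : Ex} (M k1 s1 k2 s2 : ℕ)
    (h : chkX V10 P10 1645 gs p M k1 s1 k2 s2 = true) (hy : ∀ k, 0 ≤ y k)
    (hg : ∀ g ∈ gs, 0 ≤ exVal y g) : 0 ≤ exVal y p :=
  chkX_sound vars10 (by decide) h hy hg

end Pool.Agent.Helper8.FC
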